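import Pool.Agent.V11291.GS.Euler
import Pool.Agent.V11291.GS.Pts
import Pool.Agent.V1167.GL.Mer2

/-!
# The order of `ζ(𝒳, s)` at `s = 0` and Gaussian sums of point counts

Let `𝒳` be a scheme of finite type over `ℤ`, for instance regular, flat and projective as in the problem, and
`#𝒳(𝔽_q)` the number of its points over `𝔽_q`. Its zeta function is

`ζ(𝒳, s) = ∏_p exp(∑_{k ≥ 1} #𝒳(𝔽_{p^k}) p^{-ks} / k)`.

For real `A > 0` and `T > 0` consider the absolutely convergent sum over all prime powers `q = p^k`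

`G_A(T) = (4πT)^{-1/2} ∑_q #𝒳(𝔽_q) (log p) q^A exp(-(log q)² / (4T))`.

(1) For every `A > 0` and every integer `ρ`: `ζ(𝒳, s)` has a meromorphic continuation to the sector
`|Im s| < Re s + A` (a neighbourhood of `s = 0`) with finitely many zeros and poles and with order `ρ` at `s = 0`,
IF AND ONLY IF there are finitely many points `β ≠ 0` of the sector and integers `m(β)` with

`G_A(T) = -ρ exp(A² T) - ∑_β m(β) exp((β + A)² T) + O(exp(ε T))`, `T → ∞`, for every `ε > 0`.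

(2) If `ζ(𝒳, s)` has a meromorphic continuation to `ℂ`, then for every `A > 0` and every integer `ρ`:
`ord_{s=0} ζ(𝒳, s) = ρ` if and only if `G_A(T)` has such an expansion, with some `β ≠ 0` and `m(β)`.

With `ρ = ∑_i (-1)^{i+1} dim H^{2d-i}(𝒳, ℚ(d))` this expresses Soulé's formula (and for (1) also a part of the continuation)
by the numbers of points: the coefficient of `exp(A² T)` is the order at `0`, up to the sign. No growth condition, no
functional equation, no hypothesis on zeros is assumed.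

It is the criterion of `MP_7193be_nt.GaussianPointCounts` (same library), with the point `s = 0` singled out.
-/

set_option autoImplicit false

namespace Pool.Agent.Results.MP_f3836a_nt.OrderByGaussianSums

open Filter Topology Set CategoryTheory AlgebraicGeometry

/-- The number of points of `X` over the field with `p^k` elements, `k ≥ 1`. -/
noncomputable def points (X : Scheme.{0}) (p : Nat.Primes) (k : ℕ) : ℕ :=
  haveI : Fact (p : ℕ).Prime := ⟨p.2⟩
  Nat.card (Spec (CommRingCat.of (GaloisField p k)) ⟶ X)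

/-- The logarithm of the zeta function of the fibre at `p`: `∑_{k ≥ 1} #X(𝔽_{p^k}) p^{-ks} / k`. -/
noncomputable def logFibre (X : Scheme.{0}) (p : Nat.Primes) (s : ℂ) : ℂ :=
  ∑' k : ℕ, (points X p (k + 1) : ℂ) / (k + 1) * (((p : ℕ) : ℂ) ^ (-s)) ^ (k + 1)

/-- `y` is the value of `ζ(X, s)`. -/
def IsZeta (X : Scheme.{0}) (s y : ℂ) : Prop :=
  HasProd (fun p : Nat.Primes => Complex.exp (logFibre X p s)) y

/-- The sector `|Im s| < Re s + A`. -/
def Sector (A : ℝ) : Set ℂ := {s | |s.im| < s.re + A}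

/-- The Gaussian sum `G_A(T)` of the point counts. -/
noncomputable def gauss (X : Scheme.{0}) (A T : ℝ) : ℝ :=
  (Real.sqrt (4 * Real.pi * T))⁻¹ * ∑' q : Nat.Primes × ℕ, points X q.1 (q.2 + 1) *
    (Real.log (q.1 : ℕ) * ((q.1 : ℕ) : ℝ) ^ (A * (q.2 + 1)) *
      Real.exp (-(((q.2 + 1) * Real.log (q.1 : ℕ)) ^ 2 / (4 * T))))

/-- The points `β ∈ Z` lie in the sector, and in `Re s ≤ σ`, and are different from `0`. -/
def InSector (σ A : ℝ) (Z : Finset ℂ) : Prop := ∀ β ∈ Z, β ∈ Sector A ∧ β.re ≤ σ ∧ β ≠ 0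

/-- `G_A(T) = -ρ exp(A² T) - ∑_β m(β) exp((β + A)² T) + O(exp(ε T))` for every `ε > 0`. -/
def Expansion (X : Scheme.{0}) (A : ℝ) (ρ : ℤ) (Z : Finset ℂ) (m : ℂ → ℤ) : Prop :=
  ∀ ε : ℝ, 0 < ε → ∃ C : ℝ, ∀ᶠ T : ℝ in atTop,
    ‖(gauss X A T : ℂ) + ρ * Complex.exp ((A : ℂ) ^ 2 * T) +
      ∑ β ∈ Z, (m β : ℂ) * Complex.exp ((β + A) ^ 2 * T)‖ ≤ C * Real.exp (ε * T)

/-- `ζ(X, s)` has a meromorphic continuation to the union of the half plane `Re s > σ` and the sector with the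
order `ρ` at `0` and the orders `m(β)` at the points `β ∈ Z` and no other zeros and poles in the sector:
it is `H(s) s^ρ ∏_{β ∈ Z} (s - β)^{m(β)}` with a function `H`, holomorphic and without zeros in the union. -/
def ContinuesWith (X : Scheme.{0}) (σ A : ℝ) (ρ : ℤ) (Z : Finset ℂ) (m : ℂ → ℤ) : Prop :=
  ∃ H : ℂ → ℂ, (∀ s : ℂ, s ∈ Sector A ∨ σ < s.re → DifferentiableAt ℂ H s ∧ H s ≠ 0) ∧
    ∀ s : ℂ, σ < s.re → IsZeta X s (H s * (s ^ ρ * ∏ β ∈ Z, (s - β) ^ m β))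

/-- `f` is a meromorphic continuation of `ζ(X, s)` to `ℂ`. -/
def IsContinuation (X : Scheme.{0}) (f : ℂ → ℂ) : Prop :=
  MeromorphicOn f univ ∧ ∃ σ : ℝ, ∀ s : ℂ, σ < s.re → IsZeta X s (f s)

open Pool.Agent.V11291.GS

/-- the norms -/
abbrev NN : Nat.Primes → ℕ := fun p => (p : ℕ)

/-- the coefficients -/
noncomputable def cz (X : Scheme.{0}) (q : Nat.Primes × ℕ) : ℂ :=
  (points X q.1 (q.2 + 1) : ℂ) / ((q.2 : ℂ) + 1)

theorem points_le (X : Scheme.{0}) [CompactSpace X] (f : X ⟶ Spec (CommRingCat.of ℤ))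
    [LocallyOfFiniteType f] : ∃ C d : ℕ, ∀ (p : Nat.Primes) (k : ℕ),
      (points X p (k + 1) : ℝ) ≤ C * (((p : ℕ) : ℝ) ^ (d : ℝ)) ^ (k + 1) := by
  obtain ⟨C, d, h⟩ := pt_card X f
  refine ⟨C, d, fun p k => ?_⟩
  have : Fact (p : ℕ).Prime := ⟨p.2⟩
  have h1 := h (GaloisField p (k + 1))
  rw [GaloisField.card p (k + 1) (by omega)] at h1
  have h2 : (points X p (k + 1) : ℝ) ≤ ((C * ((p : ℕ) ^ (k + 1)) ^ d : ℕ) : ℝ) := by
    exact_mod_cast h1
  refine h2.trans (le_of_eq ?_)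
  push_cast
  rw [Real.rpow_natCast, ← pow_mul, ← pow_mul, mul_comm d]

/-- the index structure, without parameters -/
theorem exists_gd (X : Scheme.{0}) [CompactSpace X] (f : X ⟶ Spec (CommRingCat.of ℤ))
    [LocallyOfFiniteType f] : ∃ c : ℝ, ∀ σ : ℝ, 1 + c < σ →
      GD (xx NN) (cz X) (Real.log 2) σ := by
  obtain ⟨C, d, h⟩ := points_le X f
  refine ⟨d, fun σ hσ => ?_⟩
  have E : EP (r := 0) NN (fun _ i => i.elim0) (d : ℝ) σ :=
    ⟨fun p => p.2.two_le, fun t ht => Nat.Primes.summable_rpow.2 (by linarith : -t < -1),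
      Nat.cast_nonneg d, fun _ i => i.elim0, hσ⟩
  refine ⟨E.gd.δ0, E.gd.σ0, E.gd.ge, ?_⟩
  refine Summable.of_nonneg_of_le (fun q => by positivity) (fun q => ?_)
    (E.summable.mul_left (C : ℝ))
  have hN : (0 : ℝ) < ((q.1 : ℕ) : ℝ) := E.pos q.1
  have h1 : ‖cz X q‖ ≤ C * (((q.1 : ℕ) : ℝ) ^ (d : ℝ)) ^ (q.2 + 1) := by
    unfold cz
    have h3 : ‖((q.2 : ℂ) + 1)‖ = (q.2 : ℝ) + 1 := by
      rw [show ((q.2 : ℂ) + 1) = (((q.2 : ℝ) + 1 : ℝ) : ℂ) by push_cast; ring, Complex.norm_real,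
        Real.norm_of_nonneg (by positivity)]
    rw [norm_div, h3, Complex.norm_natCast]
    refine (div_le_self (Nat.cast_nonneg _) ?_).trans (h q.1 q.2)
    have : (0 : ℝ) ≤ q.2 := q.2.cast_nonneg
    linarith
  rw [E.exp_x]
  calc _ ≤ (C * (((q.1 : ℕ) : ℝ) ^ (d : ℝ)) ^ (q.2 + 1)) * (((q.1 : ℕ) : ℝ) ^ (-σ)) ^ (q.2 + 1) := by
        gcongr
    _ = _ := by
      rw [mul_assoc, ← mul_pow, ← Real.rpow_add hN]
      congr 3
      ring

theorem gauss_eq (X : Scheme.{0}) (A T : ℝ) :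
    (gauss X A T : ℂ) = G (xx NN) (cA (xx NN) (cz X) A) T := by
  unfold gauss G
  rw [← tsum_mul_left, Complex.ofReal_tsum]
  refine tsum_congr fun q => ?_
  have hp0 : (0 : ℝ) < ((q.1 : ℕ) : ℝ) := by exact_mod_cast q.1.2.pos
  have h1 : ((q.1 : ℕ) : ℝ) ^ (A * (q.2 + 1)) = Real.exp (A * xx NN q) := by
    rw [Real.rpow_def_of_pos hp0]
    congr 1
    unfold xx
    ring
  have h2 : ((q.2 : ℂ) + 1) ≠ 0 := by exact_mod_cast q.2.succ_ne_zero
  unfold cA cz kr
  rw [h1]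
  unfold xx
  push_cast
  field_simp

theorem hasProd {X : Scheme.{0}} {σ : ℝ} (D : GD (xx NN) (cz X) (Real.log 2) σ) {s : ℂ}
    (hs : σ ≤ s.re) : HasProd (fun p : Nat.Primes => Complex.exp (logFibre X p s))
      (Complex.exp (ll (xx NN) (cz X) s)) := by
  have h1 := D.ll_summable hs
  have hterm : ∀ (p : Nat.Primes) (k : ℕ), cz X (p, k) * Complex.exp (-(s * xx NN (p, k))) =
      (points X p (k + 1) : ℂ) / (k + 1) * (((p : ℕ) : ℂ) ^ (-s)) ^ (k + 1) := by
    intro p k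
    have hN : ((p : ℕ) : ℂ) ≠ 0 := by exact_mod_cast p.2.ne_zero
    unfold cz xx
    simp only
    congr 1
    rw [Complex.cpow_def_of_ne_zero hN, ← Complex.exp_nat_mul]
    congr 1
    push_cast
    ring
  have h2 : ∀ p : Nat.Primes, HasSum (fun k : ℕ => cz X (p, k) *
      Complex.exp (-(s * xx NN (p, k)))) (logFibre X p s) := by
    intro p
    have h3 := (h1.comp_injective (i := fun k : ℕ => (p, k)) fun a b h => (Prod.ext_iff.1 h).2).hasSum
    have h4 : logFibre X p s = ∑' k : ℕ, cz X (p, k) * Complex.exp (-(s * xx NN (p, k))) := by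
      unfold logFibre
      exact tsum_congr fun k => (hterm p k).symm
    rw [h4]
    exact h3
  exact (h1.hasSum.prod_fiberwise h2).cexp

theorem isZeta_iff {X : Scheme.{0}} {σ : ℝ} (D : GD (xx NN) (cz X) (Real.log 2) σ) {s : ℂ}
    (hs : σ ≤ s.re) (y : ℂ) : IsZeta X s y ↔ Complex.exp (ll (xx NN) (cz X) s) = y := by
  have h1 := hasProd D hs
  unfold IsZeta
  constructor
  · intro h
    exact h1.unique h
  · rintro rfl
    exact h1

/-- the divisor with the point `0` -/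
noncomputable def mm (ρ : ℤ) (m : ℂ → ℤ) : ℂ → ℤ := Function.update m 0 ρ

theorem sum_eq {A : ℝ} {ρ : ℤ} {Z : Finset ℂ} {m : ℂ → ℤ} (h : ∀ β ∈ Z, β ≠ 0) (T : ℝ) :
    ∑ β ∈ insert 0 Z, (mm ρ m β : ℂ) * Complex.exp ((β + A) ^ 2 * T) =
      ρ * Complex.exp ((A : ℂ) ^ 2 * T) + ∑ β ∈ Z, (m β : ℂ) * Complex.exp ((β + A) ^ 2 * T) := by
  have h0 : (0 : ℂ) ∉ Z := fun h1 => h 0 h1 rfl
  rw [Finset.sum_insert h0]
  unfold mm
  rw [Function.update_self, zero_add]
  congr 1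
  refine Finset.sum_congr rfl fun β hβ => ?_
  rw [Function.update_of_ne (h β hβ)]

theorem prod_eq {ρ : ℤ} {Z : Finset ℂ} {m : ℂ → ℤ} (h : ∀ β ∈ Z, β ≠ 0) (s : ℂ) :
    ∏ β ∈ insert 0 Z, (s - β) ^ mm ρ m β = s ^ ρ * ∏ β ∈ Z, (s - β) ^ m β := by
  have h0 : (0 : ℂ) ∉ Z := fun h1 => h 0 h1 rfl
  rw [Finset.prod_insert h0]
  unfold mm
  rw [Function.update_self, sub_zero]
  congr 1
  refine Finset.prod_congr rfl fun β hβ => ?_
  rw [Function.update_of_ne (h β hβ)]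

theorem expansion_iff (X : Scheme.{0}) (A : ℝ) (ρ : ℤ) {Z : Finset ℂ} (m : ℂ → ℤ)
    (h : ∀ β ∈ Z, β ≠ 0) : Expansion X A ρ Z m ↔ Ex (xx NN) (cz X) A (insert 0 Z) (mm ρ m) := by
  unfold Expansion Ex
  simp only [gauss_eq, sum_eq h, add_assoc]

theorem zero_mem {A : ℝ} (hA : 0 < A) : (0 : ℂ) ∈ Sector A := by
  change |(0 : ℂ).im| < (0 : ℂ).re + A
  simpa using hA

/-- **Theorem.** Let `X` be a scheme of finite type over `ℤ`. There is `σ₁` such that for all `σ₀ ≥ σ₁` the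
following holds. The product `ζ(X, s)` converges for `Re s > σ₀`, its values are not zero.

(1) For `A > 0`, an integer `ρ`, a finite set `Z` of points `β ≠ 0` in the sector `|Im s| < Re s + A`, `Re s ≤ σ₀`, and
integers `m(β)`: `ζ(X, s)` has a meromorphic continuation to the union of the sector and `Re s > σ₀` with
order `ρ` at `0`, orders `m(β)` at the `β ∈ Z`, and no other zeros and poles, if and only if
`G_A(T) = -ρ exp(A² T) - ∑ m(β) exp((β + A)² T) + O(exp(ε T))` for every `ε > 0`.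

(2) If `f` is a meromorphic continuation of `ζ(X, s)` to `ℂ`, then for all `A > 0` and all integers `ρ`: the order of `f` at
`0` is `ρ` if and only if `G_A(T)` has an expansion as in (1), with this `ρ` and some `Z` and `m`. -/
theorem result (X : Scheme.{0}) [CompactSpace X] (f : X ⟶ Spec (CommRingCat.of ℤ))
    [LocallyOfFiniteType f] :
    ∃ σ₁ : ℝ, ∀ σ₀ : ℝ, σ₁ ≤ σ₀ →
    (∀ s : ℂ, σ₀ < s.re → ∃ y : ℂ, y ≠ 0 ∧ IsZeta X s y) ∧
    (∀ A : ℝ, 0 < A → ∀ (ρ : ℤ) (Z : Finset ℂ) (m : ℂ → ℤ), InSector σ₀ A Z →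
      (ContinuesWith X σ₀ A ρ Z m ↔ Expansion X A ρ Z m)) ∧
    ∀ F : ℂ → ℂ, IsContinuation X F → ∀ A : ℝ, 0 < A → ∀ ρ : ℤ,
      (meromorphicOrderAt F 0 = ρ ↔
        ∃ (Z : Finset ℂ) (m : ℂ → ℤ), InSector σ₀ A Z ∧ Expansion X A ρ Z m) := by
  classical
  obtain ⟨c, hc⟩ := exists_gd X f
  refine ⟨max (c + 2) 0, fun σ₀ hσ => ?_⟩
  have hσa : c + 2 ≤ σ₀ := (le_max_left _ _).trans hσ
  have hσ0 : 0 ≤ σ₀ := (le_max_right _ _).trans hσ
  have D := hc σ₀ (by linarith)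
  have hins : ∀ {A : ℝ}, 0 < A → ∀ {Z : Finset ℂ}, InSector σ₀ A Z →
      ∀ β ∈ insert 0 Z, β ∈ Q A ∧ β.re ≤ σ₀ := by
    intro A hA Z hZ β hβ
    rcases Finset.mem_insert.1 hβ with rfl | h
    · exact ⟨zero_mem hA, by simpa using hσ0⟩
    · exact ⟨(hZ β h).1, (hZ β h).2.1⟩
  have hcrit : ∀ A : ℝ, 0 < A → ∀ (ρ : ℤ) (Z : Finset ℂ) (m : ℂ → ℤ), InSector σ₀ A Z →
      (ContinuesWith X σ₀ A ρ Z m ↔ Expansion X A ρ Z m) := by
    intro A hA ρ Z m hZ
    have hne : ∀ β ∈ Z, β ≠ 0 := fun β hβ => (hZ β hβ).2.2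
    rw [expansion_iff X A ρ m hne, ← D.crit hA.le _ (hins hA hZ)]
    constructor
    · rintro ⟨H, h1, h2⟩
      refine ⟨H, h1, fun s hs => ?_⟩
      rw [prod_eq hne]
      exact (isZeta_iff D hs.le _).1 (h2 s hs)
    · rintro ⟨H, h1, h2⟩
      refine ⟨H, h1, fun s hs => (isZeta_iff D hs.le _).2 ?_⟩
      rw [← prod_eq hne]
      exact h2 s hs
  refine ⟨fun s hs => ⟨_, Complex.exp_ne_zero _, (isZeta_iff D hs.le _).2 rfl⟩, hcrit,
    fun F hF A hA ρ => ?_⟩
  obtain ⟨h1, σ, h2⟩ := hF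
  have hFe : ∀ s : ℂ, max σ σ₀ < s.re → F s = Complex.exp (ll (xx NN) (cz X) s) := fun s hs =>
    ((isZeta_iff D ((le_max_right _ _).trans hs.le) _).1 (h2 s ((le_max_left _ _).trans_lt hs))).symm
  constructor
  · intro hρ
    obtain ⟨Z, h3, h4, h5⟩ := D.plane_ex h1 (σ' := max σ σ₀) hFe hA.le
    refine ⟨Z.erase 0, fun β => (meromorphicOrderAt F β).untop₀, fun β hβ => ?_, ?_⟩
    · have e1 := Finset.mem_of_mem_erase hβ
      exact ⟨(h4 β e1).1, (h4 β e1).2, Finset.ne_of_mem_erase hβ⟩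
    · rw [expansion_iff X A ρ _ fun β hβ => Finset.ne_of_mem_erase hβ]
      have e2 : mm ρ (fun β => (meromorphicOrderAt F β).untop₀) =
          fun β => (meromorphicOrderAt F β).untop₀ := by
        unfold mm
        rw [Function.update_eq_self_iff]
        rw [hρ]
        rfl
      rw [e2]
      by_cases h0 : (0 : ℂ) ∈ Z
      · rw [Finset.insert_erase h0]
        exact h5
      · have hz : meromorphicOrderAt F 0 = 0 := by
          by_contra h6
          exact h0 ((h3 0).2 ⟨zero_mem hA, h6⟩)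
        rw [Finset.erase_eq_of_notMem h0]
        intro ε hε
        obtain ⟨C, hC⟩ := h5 ε hε
        refine ⟨C, ?_⟩
        filter_upwards [hC] with T hT
        rw [Finset.sum_insert h0, hz]
        simpa using hT
  · rintro ⟨Z, m, hZ, hE⟩
    have hne : ∀ β ∈ Z, β ≠ 0 := fun β hβ => (hZ β hβ).2.2
    obtain ⟨H, h3, h4⟩ := (hcrit A hA ρ Z m hZ).2 hE
    have hHa : ∀ s ∈ Q A, AnalyticAt ℂ H s := fun s hs =>
      Pool.Agent.V11291.ME.an_of (Q_open A) (fun z hz => (h3 z (Or.inl hz)).1) hs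
    set g : ℂ → ℂ := fun s => H s * ∏ β ∈ Z, (s - β) ^ m β with hg
    have hga : AnalyticAt ℂ g 0 :=
      Pool.Agent.V11291.ME.dv_analytic (hHa 0 (zero_mem hA)) fun h => hne 0 h rfl
    have hg0 : g 0 ≠ 0 := Pool.Agent.V11291.ME.dv_ne (h3 0 (Or.inl (zero_mem hA))).2 fun h => hne 0 h rfl
    set F' : ℂ → ℂ := fun s => (s - 0) ^ ρ • g s with hF'
    have hgm : MeromorphicOn g (Q A) := fun z hz => Pool.Agent.V11291.ME.dv_mero (hHa z hz)
    have hlin : ∀ z : ℂ, MeromorphicAt (fun s : ℂ => (s - 0) ^ ρ) z := fun z => by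
      have h5 : MeromorphicAt (fun s : ℂ => s - 0) z := by fun_prop
      exact h5.fun_zpow ρ
    have hF'm : MeromorphicOn F' (Q A) := fun z hz => (hlin z).fun_smul (hgm z hz)
    have hord : meromorphicOrderAt F' 0 = ρ := by
      rw [meromorphicOrderAt_eq_int_iff (hF'm 0 (zero_mem hA))]
      exact ⟨g, hga, hg0, Eventually.of_forall fun z => rfl⟩
    set r : ℝ := max σ σ₀ + 1 with hr
    have hr1 : max σ σ₀ < r := lt_add_one _
    have hr0 : 0 < r := lt_of_le_of_lt (hσ0.trans (le_max_right _ _)) hr1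
    have hrQ : (r : ℂ) ∈ Q A := by
      change |((r : ℝ) : ℂ).im| < ((r : ℝ) : ℂ).re + A
      rw [Complex.ofReal_im, Complex.ofReal_re, abs_zero]
      linarith
    have hrr : max σ σ₀ < ((r : ℝ) : ℂ).re := by rwa [Complex.ofReal_re]
    have h6 : F =ᶠ[𝓝[≠] (r : ℂ)] F' := by
      refine Eventually.filter_mono nhdsWithin_le_nhds ?_
      have ho : IsOpen {z : ℂ | max σ σ₀ < z.re} := isOpen_lt continuous_const Complex.continuous_re
      filter_upwards [ho.mem_nhds hrr] with z hz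
      have e1 := (isZeta_iff D ((le_max_right σ σ₀).trans (le_of_lt hz)) _).1
        (h4 z ((le_max_right σ σ₀).trans_lt hz))
      rw [hFe z hz, e1, hF', hg]
      simp only [sub_zero, smul_eq_mul]
      ring
    have h7 : F =ᶠ[𝓝[≠] (0 : ℂ)] F' := Pool.Agent.V1167.GL.mer_ident (Q_convex A)
      (fun z _ => h1 z (mem_univ z)) hF'm hrQ h6 (zero_mem hA)
    rw [meromorphicOrderAt_congr h7, hord]

end Pool.Agent.Results.MP_f3836a_nt.OrderByGaussianSums
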