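import Pool.Agent.V1194.LP.Zeta

/-!
# The order of `ζ(X, s)` at `s = 0` from the closed points of `X`

Let `X` be a scheme (in Soulé's conjecture regular, connected, flat and projective over `ℤ`, of dimension `d`)
whose zeta function `ζ(X, s) = ∏_x (1 - N(x)^{-s})⁻¹` converges absolutely for `Re s > d`, and suppose that it
has a meromorphic continuation to a neighbourhood of the real interval `[0, d]`. Soulé's conjecture says that
its order at `s = 0` is `∑ (-1)^{i+1} dim H^{2d-i}(X, ℚ(d))`. The point `s = 0` is far away from the half plane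
`Re s > d` of the Euler product, and there the logarithm `∑_x ∑_k N(x)^{-ks}/k` of the product becomes the
completely divergent series `∑_x ∑_k 1/k`. We show that nevertheless the order and the absolute value of the
leading coefficient at `s = 0` can be read off from this series with the weights `cos(γu)/Γ(1+u)`: let
`γ > π/2` be any real number and

`V(Y) = ∑_{x closed} ∑_{k ≥ 1} (1/k) cos(γu)/Γ(1 + u)`,  `u = k log N(x) / log Y`

(for `Y → ∞` every single weight tends to `1`). Then

1. `V(Y)` converges absolutely, and `V(Y) = log |A| - r (log log Y - λ_γ) + O(1/log Y)`, where `r` is the order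
   and `A` the leading coefficient of `ζ(X, s)` at `s = 0`, with an explicit constant `λ_γ`.
2. For every integer `ρ`: `r = ρ` if and only if `V(Y) + ρ log log Y` is bounded for `Y → ∞`; `r ≥ ρ` if and
   only if it is bounded above; `r ≤ ρ` if and only if it is bounded below.

With `ρ = ∑ (-1)^{i+1} dim H^{2d-i}(X, ℚ(d))` this turns Soulé's formula (and each of the two inequalities in
it) into an elementary statement on the numbers of closed points of `X`. Nothing is assumed on zeros or poles of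
`ζ(X, s)`, for instance between `0` and `d`.
-/

set_option autoImplicit false

namespace Pool.Agent.Results.MP_f3836a_nt.OrderFromClosedPoints

open Filter Topology Set AlgebraicGeometry

/-- The closed points of `X`. -/
abbrev Pt (X : Scheme.{0}) : Type := {x : X // IsClosed ({x} : Set X)}

/-- `N(x)`, the number of elements of the residue field of the closed point `x`. -/
noncomputable def nrm (X : Scheme.{0}) (x : Pt X) : ℝ := (Nat.card (X.residueField x.1) : ℝ)

/-- The zeta function of `X` converges absolutely for `Re s > d`, where `d ≥ 1` (the closed points have finite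
residue fields). By Serre this is so for every scheme of finite type over `ℤ` of dimension `d ≥ 1`. -/
structure Converges (X : Scheme.{0}) (d : ℝ) : Prop where
  one_le : 1 ≤ d
  two_le : ∀ x : Pt X, 2 ≤ nrm X x
  summable : ∀ σ : ℝ, d < σ → Summable fun x : Pt X => nrm X x ^ (-σ)

/-- `Z` is the zeta function `∏_x (1 - N(x)^{-s})⁻¹` of `X` for `Re s > d`, and it is meromorphic at the points
of the real interval `[0, d]`. -/
structure IsZeta (X : Scheme.{0}) (d : ℝ) (Z : ℂ → ℂ) : Prop where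
  prod : ∀ s : ℂ, d < s.re → Z s = ∏' x : Pt X, (1 - (nrm X x : ℂ) ^ (-s))⁻¹
  mero : ∀ y : ℝ, 0 ≤ y → y ≤ d → MeromorphicAt Z (y : ℂ)

/-- The term `(1/k) cos(γu)/Γ(1 + u)`, `u = k log N(x) / log Y`. -/
noncomputable def term (X : Scheme.{0}) (γ Y : ℝ) (x : Pt X) (k : ℕ) : ℝ :=
  Real.cos (γ * (k * Real.log (nrm X x) / Real.log Y)) /
    (k * Real.Gamma (1 + k * Real.log (nrm X x) / Real.log Y))

/-- `V(Y)`, the sum over all closed points and `k ≥ 1` (here `k = i.2 + 1`). -/
noncomputable def V (X : Scheme.{0}) (γ Y : ℝ) : ℝ :=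
  ∑' i : Pt X × ℕ, term X γ Y i.1 (i.2 + 1)

/-- `λ_γ`, the real part of `∫_0^∞ (e^{-t} - e^{iγt}/Γ(1 + t)) dt/t`. -/
noncomputable def lam (γ : ℝ) : ℝ := (∫ t in Ioi (0 : ℝ),
  (Complex.exp (-(t : ℂ)) -
    Complex.exp ((γ * t : ℝ) * Complex.I) * ((Real.Gamma (1 + t))⁻¹ : ℝ)) / t).re

theorem term_eq (X : Scheme.{0}) (γ Y : ℝ) (i : Pt X × ℕ) :
    Pool.Agent.V1194.LP.rt (nrm X) 0 γ Y i = term X γ Y i.1 (i.2 + 1) := by
  unfold Pool.Agent.V1194.LP.rt term
  rw [Real.rpow_zero, one_pow, mul_one]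

theorem V_eq (X : Scheme.{0}) (γ Y : ℝ) :
    ∑' i, Pool.Agent.V1194.LP.rt (nrm X) 0 γ Y i = V X γ Y :=
  tsum_congr fun i => term_eq X γ Y i

/-- **The order and the leading coefficient of `ζ(X, s)` at `s = 0` from the closed points.** -/
theorem result (X : Scheme.{0}) (d : ℝ) (hX : Converges X d) (Z : ℂ → ℂ) (hZ : IsZeta X d Z) (γ : ℝ)
    (hγ : Real.pi / 2 < γ) :
    (∀ Y : ℝ, 1 < Y → Summable fun i : Pt X × ℕ => |term X γ Y i.1 (i.2 + 1)|) ∧
    ∃ (r : ℤ) (A : ℂ), A ≠ 0 ∧ meromorphicOrderAt Z 0 = r ∧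
      Tendsto (fun s : ℂ => Z s / s ^ r) (𝓝[≠] 0) (𝓝 A) ∧
      (fun Y : ℝ => V X γ Y - (Real.log ‖A‖ - r * (Real.log (Real.log Y) - lam γ))) =O[atTop]
        (fun Y : ℝ => 1 / Real.log Y) ∧
      (∀ ρ : ℤ, r = ρ ↔
        ∃ C : ℝ, ∀ᶠ Y : ℝ in atTop, |V X γ Y + ρ * Real.log (Real.log Y)| ≤ C) ∧
      (∀ ρ : ℤ, ρ ≤ r ↔
        ∃ C : ℝ, ∀ᶠ Y : ℝ in atTop, V X γ Y + ρ * Real.log (Real.log Y) ≤ C) ∧
      (∀ ρ : ℤ, r ≤ ρ ↔
        ∃ C : ℝ, ∀ᶠ Y : ℝ in atTop, C ≤ V X γ Y + ρ * Real.log (Real.log Y)) := by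
  obtain ⟨h1, r, A, h2, h3, h4, h5, h6, h7, h8⟩ := Pool.Agent.V1194.LP.zeta_package
    (q := nrm X) (L := Z) hX.one_le hX.two_le hX.summable 0
    (fun x hx => hZ.mero x hx.1 hx.2) hZ.prod hγ
  simp only [V_eq, Complex.ofReal_zero, sub_zero] at h3 h4 h5 h6 h7 h8
  refine ⟨fun Y hY => (h1 Y hY).congr fun i => by rw [term_eq], r, A, h2, h3, h4, h5, h6, h7, h8⟩

end Pool.Agent.Results.MP_f3836a_nt.OrderFromClosedPoints
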